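import Pool.Agent.Q123.CC.Clone
import Pool.Agent.Q123.CC.Sharp

/-!
Boolean operations which are not conjunctions.
-/

set_option autoImplicit false

open Finset Q123.CC

namespace Q123.ZK

variable {n k : ℕ}

/-- `f` is a conjunction of variables (the empty one is constantly one) or constantly zero -/
def IsConj (f : (Fin k → ZMod 2) → ZMod 2) : Prop :=
  (∀ x, f x = 0) ∨ ∃ s : Finset (Fin k), ∀ x, f x = ∏ i ∈ s, x i

/-- zeros on `S` -/
def eS (S : Finset (Fin k)) : Fin k → ZMod 2 := fun i => if i ∈ S then 0 else 1

lemma zc (t : ZMod 2) : t = 0 ∨ t = 1 := by
  revert t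
  decide

lemma eS_zeros (x : Fin k → ZMod 2) : eS (univ.filter fun i => x i = 0) = x := by
  funext i
  unfold eS
  rcases zc (x i) with h | h
  · rw [if_pos (by rw [mem_filter]; exact ⟨mem_univ _, h⟩), h]
  · rw [if_neg (by rw [mem_filter, h]; simp), h]

lemma eS_empty : eS (∅ : Finset (Fin k)) = fun _ => 1 := by
  funext i
  unfold eS
  rw [if_neg (notMem_empty _)]

/-- closure under meets of words with two variables set on `S` -/
lemma close_one {f : (Fin k → ZMod 2) → ZMod 2} {C : Finset (Fin n → ZMod 2)}
    (hC : ClosedUnder f C) (hm : ∀ x ∈ C, ∀ y ∈ C, x * y ∈ C) (S : Finset (Fin k))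
    {x y : Fin n → ZMod 2} (hx : x ∈ C) (hy : y ∈ C) :
    (fun j => x j * f (fun i => if i ∈ S then x j * y j else x j)) ∈ C := by
  have h1 := hC (fun i => if i ∈ S then x * y else x) (by
    intro i
    split_ifs
    · exact hm _ hx _ hy
    · exact hx)
  have h2 := hm _ hx _ h1
  have h3 : (x * fun j => f (fun i => (if i ∈ S then x * y else x : Fin n → ZMod 2) j)) =
      fun j => x j * f (fun i => if i ∈ S then x j * y j else x j) := by
    funext j
    rw [Pi.mul_apply]
    congr 2
    funext i
    split_ifs <;> rfl
  rw [← h3]
  exact h2

lemma close_two {f : (Fin k → ZMod 2) → ZMod 2} {C : Finset (Fin n → ZMod 2)}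
    (hC : ClosedUnder f C) (hm : ∀ x ∈ C, ∀ y ∈ C, x * y ∈ C) (S : Finset (Fin k)) (i₀ : Fin k)
    {x y z : Fin n → ZMod 2} (hx : x ∈ C) (hy : y ∈ C) (hz : z ∈ C) :
    (fun j => x j * f (fun i => if i = i₀ then x j * y j else if i ∈ S then x j * z j
      else x j)) ∈ C := by
  have h1 := hC (fun i => if i = i₀ then x * y else if i ∈ S then x * z else x) (by
    intro i
    split_ifs
    · exact hm _ hx _ hy
    · exact hm _ hx _ hz
    · exact hx)
  have h2 := hm _ hx _ h1
  have h3 : (x * fun j => f (fun i =>
      (if i = i₀ then x * y else if i ∈ S then x * z else x : Fin n → ZMod 2) j)) =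
      fun j => x j * f (fun i => if i = i₀ then x j * y j else if i ∈ S then x j * z j
        else x j) := by
    funext j
    rw [Pi.mul_apply]
    congr 2
    funext i
    split_ifs <;> rfl
  rw [← h3]
  exact h2

/-- relative union -/
def RelUnion (C : Finset (Fin n → ZMod 2)) : Prop :=
  ∀ x ∈ C, ∀ y ∈ C, ∀ z ∈ C, x * (y + z + y * z) ∈ C

lemma rel_of_imp {C : Finset (Fin n → ZMod 2)}
    (h : ∀ x ∈ C, ∀ y ∈ C, ∀ z ∈ C, x * (1 + y + y * z) ∈ C) : RelUnion C := by
  intro x hx y hy z hz
  have h1 := h x hx _ (h x hx y hy z hz) z hz
  have h2 : x * (1 + x * (1 + y + y * z) + x * (1 + y + y * z) * z) = x * (y + z + y * z) := by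
    funext j
    simp only [Pi.mul_apply, Pi.add_apply, Pi.one_apply]
    generalize x j = a
    generalize y j = b
    generalize z j = c
    revert a b c
    decide
  rw [h2] at h1
  exact h1

lemma rel_of_diff {C : Finset (Fin n → ZMod 2)}
    (h : ∀ x ∈ C, ∀ y ∈ C, x * (1 + y) ∈ C) : RelUnion C := by
  intro x hx y hy z hz
  have h1 := h x hx _ (h _ (h x hx y hy) z hz)
  have h2 : x * (1 + x * (1 + y) * (1 + z)) = x * (y + z + y * z) := by
    funext j
    simp only [Pi.mul_apply, Pi.add_apply, Pi.one_apply]
    generalize x j = a
    generalize y j = b
    generalize z j = c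
    revert a b c
    decide
  rw [h2] at h1
  exact h1

/-- **Key lemma.** Meets and a further operation give relative unions. -/
theorem rel_of_meet {f : (Fin k → ZMod 2) → ZMod 2} (hf : ¬ IsConj f)
    {C : Finset (Fin n → ZMod 2)} (hC : ClosedUnder f C)
    (hm : ∀ x ∈ C, ∀ y ∈ C, x * y ∈ C) : RelUnion C := by
  classical
  rcases zc (f fun _ => 1) with h1 | h1
  · -- the value at the top is zero
    obtain ⟨w, hw⟩ : ∃ w, f w = 1 := by
      by_contra hcon
      push Not at hcon
      exact hf (Or.inl fun x => (zc _).resolve_right (hcon x))
    apply rel_of_diff
    intro x hx y hy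
    have h2 := close_one hC hm (univ.filter fun i => w i = 0) hx hy
    have h3 : (fun j => x j * f (fun i => if i ∈ (univ.filter fun i => w i = 0) then x j * y j
        else x j)) = x * (1 + y) := by
      funext j
      rw [Pi.mul_apply, Pi.add_apply, Pi.one_apply]
      rcases zc (x j) with hj | hj
      · rw [hj, zero_mul, zero_mul]
      · rw [hj, one_mul]
        rcases zc (y j) with hk | hk
        · have h4 : (fun i => if i ∈ (univ.filter fun i => w i = 0) then (1 : ZMod 2) * y j
              else 1) = w := by
            rw [hk, mul_zero]
            exact eS_zeros w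
          rw [h4, hw, hk]
          decide
        · have h4 : (fun i => if i ∈ (univ.filter fun i => w i = 0) then (1 : ZMod 2) * y j
              else 1) = fun _ => 1 := by
            funext i
            rw [hk, mul_one, ite_self]
          rw [h4, h1, hk]
          decide
    rw [h3] at h2
    exact h2
  · by_cases hA : ∃ S : Finset (Fin k), (∀ i ∈ S, f (eS {i}) = 1) ∧ f (eS S) = 0
    · -- case A
      obtain ⟨S, hS, hS0⟩ := hA
      have hex : ∃ m : ℕ, ∃ T : Finset (Fin k), T.card = m ∧ T ⊆ S ∧ f (eS T) = 0 :=
        ⟨S.card, S, rfl, subset_rfl, hS0⟩
      obtain ⟨T, hTc, hTS, hT0⟩ := Nat.find_spec hex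
      have hmin : ∀ T' : Finset (Fin k), T' ⊆ S → T'.card < T.card → f (eS T') = 1 := by
        intro T' h2 h3
        by_contra hcon
        have h4 := (zc _).resolve_right hcon
        rw [hTc] at h3
        exact Nat.find_min hex h3 ⟨T', rfl, h2, h4⟩
      have hTne : T.Nonempty := by
        rw [nonempty_iff_ne_empty]
        rintro rfl
        rw [eS_empty, h1] at hT0
        exact absurd hT0 (by decide)
      obtain ⟨i₀, hi₀⟩ := hTne
      have hcard : 2 ≤ T.card := by
        by_contra hcon
        have h2 : T.card = 1 := by
          have := card_pos.2 ⟨i₀, hi₀⟩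
          omega
        obtain ⟨i, hi⟩ := card_eq_one.1 h2
        rw [hi] at hT0
        rw [hS i (hTS (by rw [hi]; exact mem_singleton_self _))] at hT0
        exact absurd hT0 (by decide)
      intro x hx y hy z hz
      have h2 := close_two hC hm T i₀ hx hy hz
      have h3 : (fun j => x j * f (fun i => if i = i₀ then x j * y j else if i ∈ T then x j * z j
          else x j)) = x * (y + z + y * z) := by
        funext j
        rw [Pi.mul_apply, Pi.add_apply, Pi.add_apply, Pi.mul_apply]
        rcases zc (x j) with hj | hj
        · rw [hj, zero_mul, zero_mul]
        · rw [hj, one_mul]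
          rcases zc (y j) with hy' | hy' <;> rcases zc (z j) with hz' | hz'
          · have h4 : (fun i => if i = i₀ then (1 : ZMod 2) * y j else if i ∈ T then 1 * z j
                else 1) = eS T := by
              funext i
              unfold eS
              rw [hy', hz', mul_zero]
              by_cases hi : i = i₀
              · rw [if_pos hi, if_pos (hi ▸ hi₀)]
              · rw [if_neg hi]
            rw [h4, hT0, hy', hz']
            decide
          · have h4 : (fun i => if i = i₀ then (1 : ZMod 2) * y j else if i ∈ T then 1 * z j
                else 1) = eS {i₀} := by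
              funext i
              unfold eS
              rw [hy', hz', mul_zero, mul_one, ite_self]
              by_cases hi : i = i₀
              · rw [if_pos hi, if_pos (mem_singleton.2 hi)]
              · rw [if_neg hi, if_neg (fun h => hi (mem_singleton.1 h))]
            rw [h4, hS i₀ (hTS hi₀), hy', hz']
            decide
          · have h4 : (fun i => if i = i₀ then (1 : ZMod 2) * y j else if i ∈ T then 1 * z j
                else 1) = eS (T.erase i₀) := by
              funext i
              unfold eS
              rw [hy', hz', mul_zero, mul_one]
              by_cases hi : i = i₀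
              · rw [if_pos hi, if_neg (fun h => (mem_erase.1 h).1 hi)]
              · rw [if_neg hi]
                by_cases hiT : i ∈ T
                · rw [if_pos hiT, if_pos (mem_erase.2 ⟨hi, hiT⟩)]
                · rw [if_neg hiT, if_neg (fun h => hiT (mem_erase.1 h).2)]
            rw [h4, hmin (T.erase i₀) ((erase_subset _ _).trans hTS)
              (by rw [card_erase_of_mem hi₀]; omega), hy', hz']
            decide
          · have h4 : (fun i => if i = i₀ then (1 : ZMod 2) * y j else if i ∈ T then 1 * z j
                else 1) = fun _ => 1 := by
              funext i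
              rw [hy', hz', mul_one, ite_self, ite_self]
            rw [h4, h1, hy', hz']
            decide
      rw [h3] at h2
      exact h2
    · by_cases hB : ∃ (S : Finset (Fin k)) (i₀ : Fin k), i₀ ∈ S ∧ f (eS {i₀}) = 0 ∧ f (eS S) = 1
      · obtain ⟨S, i₀, hi₀, h0, hS1⟩ := hB
        apply rel_of_imp
        intro x hx y hy z hz
        -- `g x y z = x ∧ f(...)`
        have val : ∀ (y z : Fin n → ZMod 2) (j : Fin n),
            x j * f (fun i => if i = i₀ then x j * y j else if i ∈ S then x j * z j else x j) =
              x j * (y j * (z j + (1 + z j) * f (eS (S.erase i₀))) + (1 + y j) * (1 + z j)) := by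
          intro y z j
          rcases zc (x j) with hj | hj
          · rw [hj, zero_mul, zero_mul]
          · rw [hj]
            congr 1
            rcases zc (y j) with hy' | hy' <;> rcases zc (z j) with hz' | hz'
            · have h4 : (fun i => if i = i₀ then (1 : ZMod 2) * y j else if i ∈ S then 1 * z j
                  else 1) = eS S := by
                funext i
                unfold eS
                rw [hy', hz', mul_zero]
                by_cases hi : i = i₀
                · rw [if_pos hi, if_pos (hi ▸ hi₀)]
                · rw [if_neg hi]
              rw [h4, hS1, hy', hz']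
              have : ∀ c : ZMod 2, 1 = 0 * (0 + (1 + 0) * c) + (1 + 0) * (1 + 0) := by decide
              exact this _
            · have h4 : (fun i => if i = i₀ then (1 : ZMod 2) * y j else if i ∈ S then 1 * z j
                  else 1) = eS {i₀} := by
                funext i
                unfold eS
                rw [hy', hz', mul_zero, mul_one, ite_self]
                by_cases hi : i = i₀
                · rw [if_pos hi, if_pos (mem_singleton.2 hi)]
                · rw [if_neg hi, if_neg (fun h => hi (mem_singleton.1 h))]
              rw [h4, h0, hy', hz']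
              have : ∀ c : ZMod 2, 0 = 0 * (1 + (1 + 1) * c) + (1 + 0) * (1 + 1) := by decide
              exact this _
            · have h4 : (fun i => if i = i₀ then (1 : ZMod 2) * y j else if i ∈ S then 1 * z j
                  else 1) = eS (S.erase i₀) := by
                funext i
                unfold eS
                rw [hy', hz', mul_zero, mul_one]
                by_cases hi : i = i₀
                · rw [if_pos hi, if_neg (fun h => (mem_erase.1 h).1 hi)]
                · rw [if_neg hi]
                  by_cases hiT : i ∈ S
                  · rw [if_pos hiT, if_pos (mem_erase.2 ⟨hi, hiT⟩)]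
                  · rw [if_neg hiT, if_neg (fun h => hiT (mem_erase.1 h).2)]
              rw [h4, hy', hz']
              have : ∀ c : ZMod 2, c = 1 * (0 + (1 + 0) * c) + (1 + 1) * (1 + 0) := by decide
              exact this _
            · have h4 : (fun i => if i = i₀ then (1 : ZMod 2) * y j else if i ∈ S then 1 * z j
                  else 1) = fun _ => 1 := by
                funext i
                rw [hy', hz', mul_one, ite_self, ite_self]
              rw [h4, h1, hy', hz']
              have : ∀ c : ZMod 2, 1 = 1 * (1 + (1 + 1) * c) + (1 + 1) * (1 + 1) := by decide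
              exact this _
        rcases zc (f (eS (S.erase i₀))) with hc | hc
        · have h2 := close_two hC hm S i₀ hx hy (hm _ hy _ hz)
          have h3 : (fun j => x j * f (fun i => if i = i₀ then x j * y j
              else if i ∈ S then x j * (y * z) j else x j)) = x * (1 + y + y * z) := by
            funext j
            rw [val y (y * z) j, hc]
            simp only [Pi.mul_apply, Pi.add_apply, Pi.one_apply]
            generalize x j = a
            generalize y j = b
            generalize z j = c
            revert a b c
            decide
          rw [h3] at h2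
          exact h2
        · have h2 := close_two hC hm S i₀ hx hz hy
          have h3 : (fun j => x j * f (fun i => if i = i₀ then x j * z j
              else if i ∈ S then x j * y j else x j)) = x * (1 + y + y * z) := by
            funext j
            rw [val z y j, hc]
            simp only [Pi.mul_apply, Pi.add_apply, Pi.one_apply]
            generalize x j = a
            generalize y j = b
            generalize z j = c
            revert a b c
            decide
          rw [h3] at h2
          exact h2
      · -- conjunction
        exfalso
        apply hf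
        right
        refine ⟨univ.filter fun i => f (eS {i}) = 0, ?_⟩
        intro x
        push Not at hA hB
        have hx : x = eS (univ.filter fun i => x i = 0) := (eS_zeros x).symm
        by_cases hint : ∃ i, x i = 0 ∧ f (eS {i}) = 0
        · obtain ⟨i, hi, hi0⟩ := hint
          rw [prod_eq_zero (i := i) (by rw [mem_filter]; exact ⟨mem_univ _, hi0⟩) hi, hx]
          have h2 := hB (univ.filter fun i => x i = 0) i
            (by rw [mem_filter]; exact ⟨mem_univ _, hi⟩) hi0
          exact (zc _).resolve_right h2
        · push Not at hint
          have h2 := hA (univ.filter fun i => x i = 0) (by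
            intro i hi
            rw [mem_filter] at hi
            exact (zc _).resolve_left (hint i hi.2))
          have h3 := (zc _).resolve_left h2
          rw [← hx] at h3
          rw [h3]
          symm
          apply prod_eq_one
          intro i hi
          rw [mem_filter] at hi
          by_contra hcon
          exact hint i ((zc _).resolve_right hcon) hi.2

/-- the three kinds of closure -/
theorem kinds {f : (Fin k → ZMod 2) → ZMod 2} (hf : ¬ IsConj f)
    {C : Finset (Fin n → ZMod 2)} (hC : ClosedUnder f C) :
    (∃ g : ZMod 2 → ZMod 2 → ZMod 2 → ZMod 2, (∀ y z, g 1 y z = y + z + y * z) ∧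
      ∀ x ∈ C, ∀ y ∈ C, ∀ z ∈ C, (fun j => g (x j) (y j) (z j)) ∈ C) ∨
    (∀ x ∈ C, ∀ y ∈ C, ∀ z ∈ C, x + y + z ∈ C) ∨ (∀ x ∈ C, x + 1 ∈ C) := by
  classical
  by_cases ha : IsAffine f
  · obtain ⟨c, s, hfs⟩ := ha
    rcases Nat.lt_or_ge s.card 2 with hs | hs
    · rcases Nat.lt_or_ge s.card 1 with hs1 | hs1
      · exfalso
        apply hf
        have h1 : s = ∅ := card_eq_zero.1 (by omega)
        rcases zc c with hc | hc
        · left
          intro x
          rw [hfs, hc, h1, sum_empty, add_zero]
        · right
          refine ⟨∅, ?_⟩
          intro x
          rw [hfs, hc, h1, sum_empty, add_zero, prod_empty]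
      · obtain ⟨i, hi⟩ := card_eq_one.1 (show s.card = 1 by omega)
        rcases zc c with hc | hc
        · exfalso
          apply hf
          right
          refine ⟨{i}, ?_⟩
          intro x
          rw [hfs, hc, hi, sum_singleton, zero_add, prod_singleton]
        · right
          right
          intro x hx
          have h1 := hC (fun _ => x) (fun _ => hx)
          have h2 : (fun j => f fun _ => x j) = x + 1 := by
            funext j
            rw [hfs, hc, hi, sum_singleton, add_comm]
            rfl
          rw [← h2]
          exact h1
    · right
      left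
      intro x hx y hy z hz
      obtain ⟨W, c0, hW⟩ := coset_of_affine hs hfs C hC ⟨x, hx⟩
      rw [hW] at hx hy hz ⊢
      have h1 := W.add_mem (W.add_mem hx hy) hz
      have h2 : x + y + z + c0 = x + c0 + (y + c0) + (z + c0) := by
        have h3 : c0 + c0 = 0 := by
          funext j
          exact CharTwo.add_self_eq_zero (c0 j)
        have h4 : x + c0 + (y + c0) + (z + c0) = x + y + z + c0 + (c0 + c0) := by abel
        rw [h4, h3, add_zero]
      rw [h2]
      exact h1
  · rcases target_of_closed ha C hC with h | h | h
    · left
      refine ⟨fun x y z => x * (y + z + y * z), fun y z => one_mul _, ?_⟩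
      exact rel_of_meet hf hC h
    · left
      refine ⟨fun _ y z => y + z + y * z, fun y z => rfl, ?_⟩
      intro x _ y hy z hz
      exact h y hy z hz
    · left
      refine ⟨fun x y z => x * y + y * z + z * x, ?_, ?_⟩
      · decide
      · intro x hx y hy z hz
        exact h x hx y hy z hz

end Q123.ZK
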