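import Pool.Agent.Q123.ZK.Girth

/-!
Even cycles in closed bipartite graphs.
-/

set_option autoImplicit false

open Finset Q123.CC

namespace Q123.ZK

variable {n k : ℕ}

/-- the class `P` contains graphs with many edges -/
def Growth (P : ∀ a : ℕ, Finset (Fin a → ZMod 2) → Prop) (l : ℕ) : Prop :=
  ∃ c : ℝ, 0 < c ∧ ∃ N : ℕ, ∀ n : ℕ, N ≤ n → ∃ (a : ℕ) (C : Finset (Fin a → ZMod 2)),
    P a C ∧ C.card + a ≤ n ∧ c * (n : ℝ) ^ (1 + 1 / (l : ℝ)) ≤ total C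

theorem even_linear {f : (Fin k → ZMod 2) → ZMod 2} (hf : ¬ IsConj f) {l : ℕ} (hl : 2 ≤ l)
    {C : Finset (Fin n → ZMod 2)} (hC : ClosedUnder f C) (h : ¬ HasCycle l C) :
    total C ≤ 2 * 4 ^ l * l * (C.card + n) :=
  linear hf (by omega) (by omega) hC (kfree_of_cycle hl h)

theorem even_fails {f : (Fin k → ZMod 2) → ZMod 2} (hf : ¬ IsConj f) {l : ℕ} (hl : 2 ≤ l) :
    ¬ Growth (fun _ C => ClosedUnder f C ∧ ¬ HasCycle l C) l := by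
  rintro ⟨c, hc, N, h⟩
  apply not_growth hc (m := l) (by omega) (2 * 4 ^ l * l) N
  intro n hn
  obtain ⟨a, C, ⟨h0, h1⟩, h2, h3⟩ := h n hn
  have h4 := even_linear hf hl h0 h1
  have h5 : total C ≤ 2 * 4 ^ l * l * n := h4.trans (Nat.mul_le_mul_left _ h2)
  have h6 : (total C : ℝ) ≤ 2 * 4 ^ l * l * n := by exact_mod_cast h5
  exact h3.trans h6

theorem even_meet {f : (Fin k → ZMod 2) → ZMod 2} (hf : IsMeet f) {l : ℕ} (hl : 2 ≤ l)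
    (h : Growth (fun _ C => ¬ HasCycle 2 C ∧ ¬ HasCycle l C) l) :
    Growth (fun _ C => ClosedUnder f C ∧ ¬ HasCycle 2 C ∧ ¬ HasCycle l C) l := by
  obtain ⟨c, hc, N, h⟩ := h
  have he : (0 : ℝ) ≤ 1 + 1 / (l : ℝ) := by positivity
  refine ⟨c / 4 ^ (1 + 1 / (l : ℝ)), by positivity, 2 * N + 4, ?_⟩
  intro n hn
  obtain ⟨a, C, ⟨h2, h2'⟩, h1, h3⟩ := h ((n - 1) / 2) (by omega)
  obtain ⟨D, hCD, hD, hcard, htot, hcyc⟩ := girth_extend hf h2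
  refine ⟨a, D, ⟨hD, ?_, ?_⟩, by omega, ?_⟩
  · intro hcy
    exact h2 ((hcyc 2 le_rfl).1 hcy)
  · intro hcy
    exact h2' ((hcyc l hl).1 hcy)
  · have h4 : (n : ℝ) / 4 ≤ (((n - 1) / 2 : ℕ) : ℝ) := by
      have h5 : n ≤ 4 * ((n - 1) / 2) := by omega
      have h6 : (n : ℝ) ≤ 4 * (((n - 1) / 2 : ℕ) : ℝ) := by exact_mod_cast h5
      linarith
    have h5 : ((n : ℝ) / 4) ^ (1 + 1 / (l : ℝ)) ≤
        (((n - 1) / 2 : ℕ) : ℝ) ^ (1 + 1 / (l : ℝ)) :=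
      Real.rpow_le_rpow (by positivity) h4 he
    have h6 : ((n : ℝ) / 4) ^ (1 + 1 / (l : ℝ)) =
        (n : ℝ) ^ (1 + 1 / (l : ℝ)) / 4 ^ (1 + 1 / (l : ℝ)) :=
      Real.div_rpow (by positivity) (by norm_num) _
    calc c / 4 ^ (1 + 1 / (l : ℝ)) * (n : ℝ) ^ (1 + 1 / (l : ℝ))
        = c * ((n : ℝ) ^ (1 + 1 / (l : ℝ)) / 4 ^ (1 + 1 / (l : ℝ))) := by ring
      _ ≤ c * (((n - 1) / 2 : ℕ) : ℝ) ^ (1 + 1 / (l : ℝ)) := by
          rw [← h6]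
          exact mul_le_mul_of_nonneg_left h5 hc.le
      _ ≤ total C := h3
      _ ≤ total D := by exact_mod_cast htot

end Q123.ZK
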