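import Pool.Agent.Q123.ZK.Hull

/-!
The girth conjecture for closed bipartite graphs.
-/

set_option autoImplicit false

open Finset Q123.CC

namespace Q123.ZK

variable {n k : ℕ}

/-- zero, or a conjunction of a nonempty set of variables -/
def IsMeet (f : (Fin k → ZMod 2) → ZMod 2) : Prop :=
  (∀ x, f x = 0) ∨ ∃ s : Finset (Fin k), s.Nonempty ∧ ∀ x, f x = ∏ i ∈ s, x i

lemma conj_of_meet {f : (Fin k → ZMod 2) → ZMod 2} (h : IsMeet f) :
    IsConj f ∧ ¬ ∀ x, f x = 1 := by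
  rcases h with h | ⟨s, hs, h⟩
  · refine ⟨Or.inl h, ?_⟩
    intro h1
    have h2 := (h (fun _ => 1)).symm.trans (h1 _)
    exact absurd h2 (by decide)
  · refine ⟨Or.inr ⟨s, h⟩, ?_⟩
    intro h1
    obtain ⟨i, hi⟩ := hs
    have h2 := h1 (fun _ => 0)
    rw [h, prod_eq_zero hi rfl] at h2
    exact absurd h2 (by decide)

lemma not_meet {f : (Fin k → ZMod 2) → ZMod 2} (h : ¬ IsMeet f) :
    ¬ IsConj f ∨ ∀ x, f x = 1 := by
  classical
  by_cases hc : IsConj f
  · right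
    rcases hc with hc | ⟨s, hs⟩
    · exact absurd (Or.inl hc) h
    · by_cases hne : s.Nonempty
      · exact absurd (Or.inr ⟨s, hne, hs⟩) h
      · rw [not_nonempty_iff_eq_empty] at hne
        intro x
        rw [hs, hne, prod_empty]
  · exact Or.inl hc

/-- with the row of ones -/
lemma total_one {C : Finset (Fin n → ZMod 2)} (h : Linear2 C) (h1 : (1 : Fin n → ZMod 2) ∈ C) :
    total C ≤ n + C.card := by
  classical
  unfold total
  rw [← add_sum_erase C _ h1]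
  have h2 : (univ.filter fun j : Fin n => (1 : Fin n → ZMod 2) j = 1).card ≤ n := by
    apply (card_le_univ _).trans
    rw [Fintype.card_fin]
  have h3 : ∑ w ∈ C.erase 1, (univ.filter fun j => w j = 1).card ≤ ∑ _w ∈ C.erase 1, 1 := by
    apply sum_le_sum
    intro w hw
    rw [mem_erase] at hw
    rw [card_le_one]
    intro i hi j hj
    rw [mem_filter] at hi hj
    by_contra hij
    exact hw.1 (h w hw.2 1 h1 i j hij hi.2 hj.2 rfl rfl)
  rw [sum_const, smul_eq_mul, mul_one] at h3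
  have h4 : (C.erase 1).card ≤ C.card := card_le_card (erase_subset _ _)
  omega

/-- linear bound without four-cycles -/
theorem girth_linear {f : (Fin k → ZMod 2) → ZMod 2} (hf : ¬ IsMeet f)
    {C : Finset (Fin n → ZMod 2)} (hC : ClosedUnder f C) (h : ¬ HasCycle 2 C) :
    total C ≤ 64 * (C.card + n) := by
  rw [← linear2_iff] at h
  rcases not_meet hf with h1 | h1
  · have h2 := linear h1 (s := 2) (t := 2) (by norm_num) (by norm_num) hC (kfree_of_linear h)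
    norm_num at h2
    exact h2
  · by_cases hne : C.Nonempty
    · obtain ⟨w, hw⟩ := hne
      have h2 := hC (fun _ => w) (fun _ => hw)
      have h3 : (fun j => f fun _ => w j) = 1 := by
        funext j
        rw [h1]
        rfl
      rw [h3] at h2
      have h4 := total_one h h2
      omega
    · rw [not_nonempty_iff_eq_empty] at hne
      rw [hne]
      exact Nat.zero_le _

/-- extension to a closed graph -/
theorem girth_extend {f : (Fin k → ZMod 2) → ZMod 2} (hf : IsMeet f)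
    {C : Finset (Fin n → ZMod 2)} (h : ¬ HasCycle 2 C) :
    ∃ D : Finset (Fin n → ZMod 2), C ⊆ D ∧ ClosedUnder f D ∧ D.card ≤ C.card + n + 1 ∧
      total C ≤ total D ∧ ∀ l, 2 ≤ l → (HasCycle l D ↔ HasCycle l C) := by
  obtain ⟨h1, h2⟩ := conj_of_meet hf
  refine ⟨hull C, subset_hull C, hull_closed (linear2_iff.2 h) h1 h2, hull_card C,
    total_mono (subset_hull C), ?_⟩
  intro l hl
  refine ⟨hasCycle_hull hl, ?_⟩
  rintro ⟨w, j, hw, hj, hC, h3⟩
  exact ⟨w, j, hw, hj, fun i => subset_hull C (hC i), h3⟩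

/-- the girth conjecture for a class of bipartite graphs -/
def Girth (P : ∀ a : ℕ, Finset (Fin a → ZMod 2) → Prop) (m : ℕ) : Prop :=
  ∃ c : ℝ, 0 < c ∧ ∃ N : ℕ, ∀ n : ℕ, N ≤ n → ∃ (a : ℕ) (C : Finset (Fin a → ZMod 2)),
    P a C ∧ C.card + a ≤ n ∧ (∀ l, 2 ≤ l → l ≤ m → ¬ HasCycle l C) ∧
    c * (n : ℝ) ^ (1 + 1 / (m : ℝ)) ≤ total C

theorem girth_iff {f : (Fin k → ZMod 2) → ZMod 2} (hf : IsMeet f) {m : ℕ} (hm : 2 ≤ m) :
    Girth (fun _ C => ClosedUnder f C) m ↔ Girth (fun _ _ => True) m := by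
  constructor
  · rintro ⟨c, hc, N, h⟩
    refine ⟨c, hc, N, ?_⟩
    intro n hn
    obtain ⟨a, C, -, h1, h2, h3⟩ := h n hn
    exact ⟨a, C, trivial, h1, h2, h3⟩
  · rintro ⟨c, hc, N, h⟩
    have he : (0 : ℝ) ≤ 1 + 1 / (m : ℝ) := by positivity
    refine ⟨c / 4 ^ (1 + 1 / (m : ℝ)), by positivity, 2 * N + 4, ?_⟩
    intro n hn
    obtain ⟨a, C, -, h1, h2, h3⟩ := h ((n - 1) / 2) (by omega)
    obtain ⟨D, hCD, hD, hcard, htot, hcyc⟩ := girth_extend hf (h2 2 le_rfl hm)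
    refine ⟨a, D, hD, by omega, ?_, ?_⟩
    · intro l hl hlm hcy
      exact h2 l hl hlm ((hcyc l hl).1 hcy)
    · have h4 : (n : ℝ) / 4 ≤ (((n - 1) / 2 : ℕ) : ℝ) := by
        have h5 : n ≤ 4 * ((n - 1) / 2) := by omega
        have h6 : (n : ℝ) ≤ 4 * (((n - 1) / 2 : ℕ) : ℝ) := by exact_mod_cast h5
        linarith
      have h5 : ((n : ℝ) / 4) ^ (1 + 1 / (m : ℝ)) ≤
          (((n - 1) / 2 : ℕ) : ℝ) ^ (1 + 1 / (m : ℝ)) :=
        Real.rpow_le_rpow (by positivity) h4 he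
      have h6 : ((n : ℝ) / 4) ^ (1 + 1 / (m : ℝ)) =
          (n : ℝ) ^ (1 + 1 / (m : ℝ)) / 4 ^ (1 + 1 / (m : ℝ)) :=
        Real.div_rpow (by positivity) (by norm_num) _
      calc c / 4 ^ (1 + 1 / (m : ℝ)) * (n : ℝ) ^ (1 + 1 / (m : ℝ))
          = c * ((n : ℝ) ^ (1 + 1 / (m : ℝ)) / 4 ^ (1 + 1 / (m : ℝ))) := by ring
        _ ≤ c * (((n - 1) / 2 : ℕ) : ℝ) ^ (1 + 1 / (m : ℝ)) := by
            rw [← h6]
            exact mul_le_mul_of_nonneg_left h5 hc.le
        _ ≤ total C := h3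
        _ ≤ total D := by exact_mod_cast htot

lemma not_growth {c : ℝ} (hc : 0 < c) {m : ℕ} (hm : 1 ≤ m) (B : ℝ) (N : ℕ)
    (h : ∀ n : ℕ, N ≤ n → c * (n : ℝ) ^ (1 + 1 / (m : ℝ)) ≤ B * n) : False := by
  have he : 0 < 1 / (m : ℝ) := by
    have : (0 : ℝ) < m := by exact_mod_cast hm
    positivity
  have h1 : Filter.Tendsto (fun n : ℕ => (n : ℝ) ^ (1 / (m : ℝ))) Filter.atTop Filter.atTop :=
    (tendsto_rpow_atTop he).comp tendsto_natCast_atTop_atTop
  obtain ⟨n, hn, hn1, hn2⟩ := ((Filter.eventually_ge_atTop N).and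
    ((Filter.eventually_ge_atTop 1).and (h1.eventually_gt_atTop (B / c)))).exists
  have h2 := h n hn
  have hnpos : (0 : ℝ) < n := by exact_mod_cast hn1
  rw [Real.rpow_add hnpos, Real.rpow_one] at h2
  have h3 : B < c * (n : ℝ) ^ (1 / (m : ℝ)) := by
    rw [div_lt_iff₀ hc] at hn2
    linarith
  have h4 : B * n < c * (n : ℝ) ^ (1 / (m : ℝ)) * n := mul_lt_mul_of_pos_right h3 hnpos
  have h5 : c * ((n : ℝ) * (n : ℝ) ^ (1 / (m : ℝ))) = c * (n : ℝ) ^ (1 / (m : ℝ)) * n := by ring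
  linarith

theorem girth_fails {f : (Fin k → ZMod 2) → ZMod 2} (hf : ¬ IsMeet f) {m : ℕ} (hm : 2 ≤ m) :
    ¬ Girth (fun _ C => ClosedUnder f C) m := by
  rintro ⟨c, hc, N, h⟩
  apply not_growth hc (m := m) (by omega) 64 N
  intro n hn
  obtain ⟨a, C, h0, h1, h2, h3⟩ := h n hn
  have h4 := girth_linear hf h0 (h2 2 le_rfl hm)
  have h5 : total C ≤ 64 * n := by omega
  have h6 : (total C : ℝ) ≤ 64 * n := by exact_mod_cast h5
  exact h3.trans h6

end Q123.ZK
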