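import Pool.Agent.Q123.ZK.Linear

/-!
Adding rows with at most one one; cycles; affine planes.
-/

set_option autoImplicit false

open Finset Q123.CC

namespace Q123.ZK

variable {n k : ℕ}

/-- the rows of `C`, the rows with a single one and the zero row -/
def hull (C : Finset (Fin n → ZMod 2)) : Finset (Fin n → ZMod 2) :=
  insert 0 (C ∪ univ.image fun j : Fin n => Pi.single j 1)

lemma mem_hull {C : Finset (Fin n → ZMod 2)} {w : Fin n → ZMod 2} :
    w ∈ hull C ↔ w = 0 ∨ w ∈ C ∨ ∃ j : Fin n, w = Pi.single j 1 := by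
  classical
  unfold hull
  rw [mem_insert, mem_union, mem_image]
  constructor
  · rintro (h | h | ⟨j, -, h⟩)
    · exact Or.inl h
    · exact Or.inr (Or.inl h)
    · exact Or.inr (Or.inr ⟨j, h.symm⟩)
  · rintro (h | h | ⟨j, h⟩)
    · exact Or.inl h
    · exact Or.inr (Or.inl h)
    · exact Or.inr (Or.inr ⟨j, mem_univ _, h.symm⟩)

lemma subset_hull (C : Finset (Fin n → ZMod 2)) : C ⊆ hull C :=
  fun _ h => mem_hull.2 (Or.inr (Or.inl h))

lemma hull_card (C : Finset (Fin n → ZMod 2)) : (hull C).card ≤ C.card + n + 1 := by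
  classical
  unfold hull
  apply (card_insert_le _ _).trans
  apply Nat.add_le_add_right
  apply (card_union_le _ _).trans
  apply Nat.add_le_add_left
  apply card_image_le.trans
  rw [card_univ, Fintype.card_fin]

lemma total_mono {C D : Finset (Fin n → ZMod 2)} (h : C ⊆ D) : total C ≤ total D :=
  sum_le_sum_of_subset h

/-- words with at most one one -/
lemma few_ones {C : Finset (Fin n → ZMod 2)} {w : Fin n → ZMod 2} (hw : w ∈ hull C)
    {i j : Fin n} (hij : i ≠ j) (hi : w i = 1) (hj : w j = 1) : w ∈ C := by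
  rcases mem_hull.1 hw with rfl | h | ⟨l, rfl⟩
  · rw [Pi.zero_apply] at hi
    exact absurd hi (by decide)
  · exact h
  · exfalso
    by_cases h1 : i = l
    · have h2 : j ≠ l := fun h => hij (h1.trans h.symm)
      rw [Pi.single_eq_of_ne h2] at hj
      exact absurd hj (by decide)
    · rw [Pi.single_eq_of_ne h1] at hi
      exact absurd hi (by decide)

lemma mem_hull_of {C : Finset (Fin n → ZMod 2)} {w : Fin n → ZMod 2}
    (h : ∀ i j, w i = 1 → w j = 1 → i = j) : w ∈ hull C := by
  classical
  by_cases h0 : ∃ i, w i = 1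
  · obtain ⟨i, hi⟩ := h0
    refine mem_hull.2 (Or.inr (Or.inr ⟨i, ?_⟩))
    funext j
    by_cases hj : j = i
    · rw [hj, hi, Pi.single_eq_same]
    · rw [Pi.single_eq_of_ne hj]
      exact (zc _).resolve_right fun h1 => hj (h j i h1 hi)
  · push Not at h0
    refine mem_hull.2 (Or.inl ?_)
    funext j
    exact (zc _).resolve_right (h0 j)

/-- two rows with two common ones are equal -/
def Linear2 (C : Finset (Fin n → ZMod 2)) : Prop :=
  ∀ x ∈ C, ∀ y ∈ C, ∀ i j : Fin n, i ≠ j → x i = 1 → x j = 1 → y i = 1 → y j = 1 → x = y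

lemma hull_linear {C : Finset (Fin n → ZMod 2)} (h : Linear2 C) : Linear2 (hull C) :=
  fun x hx y hy i j hij h1 h2 h3 h4 =>
    h x (few_ones hx hij h1 h2) y (few_ones hy hij h3 h4) i j hij h1 h2 h3 h4

lemma hull_meet {C : Finset (Fin n → ZMod 2)} (h : Linear2 C) :
    ∀ x ∈ hull C, ∀ y ∈ hull C, x * y ∈ hull C := by
  intro x hx y hy
  by_cases hxy : ∃ i j, i ≠ j ∧ (x * y) i = 1 ∧ (x * y) j = 1
  · obtain ⟨i, j, hij, h1, h2⟩ := hxy
    have key : ∀ a b : ZMod 2, a * b = 1 → a = 1 ∧ b = 1 := by decide
    have h3 := key _ _ h1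
    have h4 := key _ _ h2
    have h5 := hull_linear h x hx y hy i j hij h3.1 h4.1 h3.2 h4.2
    rw [h5]
    have h6 : y * y = y := by
      funext l
      have : ∀ a : ZMod 2, a * a = a := by decide
      exact this _
    rw [h6]
    exact hy
  · push Not at hxy
    apply mem_hull_of
    intro i j h1 h2
    by_contra hij
    exact hxy i j hij h1 h2

lemma zero_mem_hull (C : Finset (Fin n → ZMod 2)) : (0 : Fin n → ZMod 2) ∈ hull C :=
  mem_hull.2 (Or.inl rfl)

/-- closure of the hull under conjunctions -/
theorem hull_closed {C : Finset (Fin n → ZMod 2)} (h : Linear2 C)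
    {f : (Fin k → ZMod 2) → ZMod 2} (hf : IsConj f) (hf1 : ¬ ∀ x, f x = 1) :
    ClosedUnder f (hull C) := by
  classical
  intro w hw
  rcases hf with h0 | ⟨s, hs⟩
  · have h1 : (fun j => f fun i => w i j) = 0 := by
      funext j
      rw [h0]
      rfl
    rw [h1]
    exact zero_mem_hull C
  · have hne : s.Nonempty := by
      rw [nonempty_iff_ne_empty]
      rintro rfl
      apply hf1
      intro x
      rw [hs, prod_empty]
    have key : ∀ s : Finset (Fin k), s.Nonempty → (∏ i ∈ s, w i) ∈ hull C := by
      intro s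
      induction s using Finset.induction_on with
      | empty => intro h; exact absurd h (by simp)
      | insert a s ha ih =>
        intro _
        rw [prod_insert ha]
        by_cases hse : s.Nonempty
        · exact hull_meet h _ (hw a) _ (ih hse)
        · rw [not_nonempty_iff_eq_empty] at hse
          rw [hse, prod_empty, mul_one]
          exact hw a
    have h1 : (fun j => f fun i => w i j) = ∏ i ∈ s, w i := by
      funext j
      rw [hs, prod_apply]
    rw [h1]
    exact key s hne

/-- closure with the row of ones added -/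
theorem hull_closed_one {C : Finset (Fin n → ZMod 2)} (h : Linear2 C)
    {f : (Fin k → ZMod 2) → ZMod 2} (hf : IsConj f) :
    ClosedUnder f (insert 1 (hull C)) := by
  classical
  have hmeet : ∀ x ∈ insert 1 (hull C), ∀ y ∈ insert 1 (hull C), x * y ∈ insert 1 (hull C) := by
    intro x hx y hy
    rcases mem_insert.1 hx with rfl | hx
    · rw [one_mul]
      exact hy
    · rcases mem_insert.1 hy with rfl | hy
      · rw [mul_one]
        exact mem_insert_of_mem hx
      · exact mem_insert_of_mem (hull_meet h x hx y hy)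
  intro w hw
  rcases hf with h0 | ⟨s, hs⟩
  · have h1 : (fun j => f fun i => w i j) = 0 := by
      funext j
      rw [h0]
      rfl
    rw [h1]
    exact mem_insert_of_mem (zero_mem_hull C)
  · have key : ∀ s : Finset (Fin k), (∏ i ∈ s, w i) ∈ insert 1 (hull C) := by
      intro s
      induction s using Finset.induction_on with
      | empty =>
        rw [prod_empty]
        exact mem_insert_self _ _
      | insert a s ha ih =>
        rw [prod_insert ha]
        exact hmeet _ (hw a) _ ih
    have h1 : (fun j => f fun i => w i j) = ∏ i ∈ s, w i := by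
      funext j
      rw [hs, prod_apply]
    rw [h1]
    exact key s

/-- cycles of length `2 l` in the bipartite graph -/
def HasCycle (l : ℕ) (C : Finset (Fin n → ZMod 2)) : Prop :=
  ∃ (w : ZMod l → Fin n → ZMod 2) (j : ZMod l → Fin n), Function.Injective w ∧
    Function.Injective j ∧ (∀ i, w i ∈ C) ∧ ∀ i, w i (j i) = 1 ∧ w i (j (i + 1)) = 1

lemma hasCycle_hull {l : ℕ} (hl : 2 ≤ l) {C : Finset (Fin n → ZMod 2)} (h : HasCycle l (hull C)) :
    HasCycle l C := by
  obtain ⟨w, j, hw, hj, hC, h1⟩ := h
  refine ⟨w, j, hw, hj, ?_, h1⟩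
  intro i
  apply few_ones (hC i) (i := j i) (j := j (i + 1)) _ (h1 i).1 (h1 i).2
  intro h2
  have h3 := hj h2
  have : Fact (1 < l) := ⟨hl⟩
  have h4 : (1 : ZMod l) = 0 := by
    have h5 : i + 0 = i + 1 := by rw [add_zero]; exact h3
    exact (add_left_cancel h5).symm
  exact absurd h4 one_ne_zero

/-- no four cycle -/
lemma linear2_iff {C : Finset (Fin n → ZMod 2)} : Linear2 C ↔ ¬ HasCycle 2 C := by
  constructor
  · rintro h ⟨w, j, hw, hj, hC, h1⟩
    have h01 : (0 : ZMod 2) ≠ 1 := by decide
    have e1 := h1 0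
    have e2 := h1 1
    have e3 : (1 : ZMod 2) + 1 = 0 := by decide
    rw [zero_add] at e1
    rw [e3] at e2
    exact h01 (hw (h _ (hC 0) _ (hC 1) (j 0) (j 1) (fun hh => h01 (hj hh)) e1.1 e1.2 e2.2 e2.1))
  · intro h x hx y hy i j hij h1 h2 h3 h4
    by_contra hxy
    apply h
    refine ⟨fun a => if a = 0 then x else y, fun a => if a = 0 then i else j, ?_, ?_, ?_, ?_⟩
    · intro a b hab
      rcases zc a with rfl | rfl <;> rcases zc b with rfl | rfl
      · rfl
      · exact absurd hab (by simpa using hxy)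
      · exact absurd hab.symm (by simpa using hxy)
      · rfl
    · intro a b hab
      rcases zc a with rfl | rfl <;> rcases zc b with rfl | rfl
      · rfl
      · exact absurd hab (by simpa using hij)
      · exact absurd hab.symm (by simpa using hij)
      · rfl
    · intro a
      dsimp only
      split_ifs
      · exact hx
      · exact hy
    · intro a
      rcases zc a with rfl | rfl
      · simp [h1, h2]
      · have e3 : (1 : ZMod 2) + 1 = 0 := by decide
        simp [e3, h3, h4]

/-- `2 l`-cycle free matrices are `K_{l,l}`-free -/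
lemma kfree_of_cycle {l : ℕ} (hl : 2 ≤ l) {C : Finset (Fin n → ZMod 2)} (h : ¬ HasCycle l C) :
    KFree l l C := by
  classical
  intro S hS
  by_contra hcon
  push Not at hcon
  apply h
  have : NeZero l := ⟨by omega⟩
  have hcS : Fintype.card (ZMod l) ≤ Fintype.card S := by
    rw [ZMod.card, Fintype.card_coe, hS]
  have hcR : Fintype.card (ZMod l) ≤
      Fintype.card (C.filter fun w => ∀ j ∈ S, w j = 1 : Finset (Fin n → ZMod 2)) := by
    rw [ZMod.card, Fintype.card_coe]
    exact hcon
  obtain ⟨a⟩ := Function.Embedding.nonempty_of_card_le hcS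
  obtain ⟨b⟩ := Function.Embedding.nonempty_of_card_le hcR
  refine ⟨fun i => (b i).1, fun i => (a i).1, fun x y h => b.injective (Subtype.ext h),
    fun x y h => a.injective (Subtype.ext h), fun i => (mem_filter.1 (b i).2).1, ?_⟩
  intro i
  exact ⟨(mem_filter.1 (b i).2).2 _ (a i).2, (mem_filter.1 (b i).2).2 _ (a (i + 1)).2⟩

lemma kfree_of_linear {C : Finset (Fin n → ZMod 2)} (h : Linear2 C) : KFree 2 2 C := by
  classical
  intro S hS
  obtain ⟨i, j, hij, rfl⟩ := card_eq_two.1 hS
  by_contra hcon
  push Not at hcon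
  obtain ⟨x, hx, y, hy, hxy⟩ := one_lt_card.1 (show 1 < _ from hcon)
  rw [mem_filter] at hx hy
  exact hxy (h x hx.1 y hy.1 i j hij (hx.2 i (by simp)) (hx.2 j (by simp)) (hy.2 i (by simp))
    (hy.2 j (by simp)))

lemma kfree_one {C : Finset (Fin n → ZMod 2)} (h : Linear2 C) : KFree 2 3 (insert 1 C) := by
  classical
  intro S hS
  have h1 := kfree_of_linear h S hS
  have h2 : ((insert 1 C).filter fun w => ∀ j ∈ S, w j = 1) ⊆
      insert 1 (C.filter fun w => ∀ j ∈ S, w j = 1) := by
    intro w hw
    rw [mem_filter] at hw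
    rcases mem_insert.1 hw.1 with h3 | h3
    · rw [h3]
      exact mem_insert_self _ _
    · exact mem_insert_of_mem (mem_filter.2 ⟨h3, hw.2⟩)
  have h3 := (card_le_card h2).trans (card_insert_le _ _)
  omega

/-- the affine plane -/
theorem plane (p : ℕ) [hp : Fact p.Prime] : ∃ C : Finset (Fin (p ^ 2) → ZMod 2),
    Linear2 C ∧ C.card ≤ p ^ 2 ∧ p ^ 3 ≤ total C := by
  classical
  have hcard : Fintype.card (Fin (p ^ 2)) = Fintype.card (ZMod p × ZMod p) := by
    rw [Fintype.card_fin, Fintype.card_prod, ZMod.card, sq]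
  obtain ⟨e⟩ := Fintype.card_eq.1 hcard
  set L : ZMod p × ZMod p → Fin (p ^ 2) → ZMod 2 := fun ab c =>
    if (e c).2 = ab.1 * (e c).1 + ab.2 then 1 else 0 with hL
  have hLone : ∀ ab c, L ab c = 1 ↔ (e c).2 = ab.1 * (e c).1 + ab.2 := by
    intro ab c
    rw [hL]
    dsimp only
    split_ifs with h
    · exact iff_of_true rfl h
    · exact iff_of_false (by decide) h
  have hlin : ∀ ab ab' : ZMod p × ZMod p, ∀ i j : Fin (p ^ 2), i ≠ j → L ab i = 1 → L ab j = 1 →
      L ab' i = 1 → L ab' j = 1 → ab = ab' := by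
    intro ab ab' i j hij h1 h2 h3 h4
    rw [hLone] at h1 h2 h3 h4
    have hx : (e i).1 ≠ (e j).1 := by
      intro hx
      apply hij
      apply e.injective
      apply Prod.ext hx
      rw [h1, h2, hx]
    have h5 : (ab.1 - ab'.1) * ((e i).1 - (e j).1) = 0 := by
      have h6 : ab.1 * (e i).1 + ab.2 = ab'.1 * (e i).1 + ab'.2 := by rw [← h1, ← h3]
      have h7 : ab.1 * (e j).1 + ab.2 = ab'.1 * (e j).1 + ab'.2 := by rw [← h2, ← h4]
      linear_combination h6 - h7
    rcases mul_eq_zero.1 h5 with h6 | h6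
    · have h7 : ab.1 = ab'.1 := sub_eq_zero.1 h6
      apply Prod.ext h7
      have h8 : ab.1 * (e i).1 + ab.2 = ab'.1 * (e i).1 + ab'.2 := by rw [← h1, ← h3]
      rw [h7] at h8
      exact add_left_cancel h8
    · exact absurd (sub_eq_zero.1 h6) hx
  have hones : ∀ ab, (univ.filter fun c => L ab c = 1).card = p := by
    intro ab
    have h1 : (univ.filter fun c => L ab c = 1).card = (univ : Finset (ZMod p)).card := by
      apply card_bij (fun c _ => (e c).1)
      · intro c _
        exact mem_univ _
      · intro c hc c' hc' h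
        rw [mem_filter, hLone] at hc hc'
        apply e.injective
        apply Prod.ext h
        rw [hc.2, hc'.2, h]
      · intro x _
        refine ⟨e.symm (x, ab.1 * x + ab.2), ?_, ?_⟩
        · rw [mem_filter, hLone, Equiv.apply_symm_apply]
          exact ⟨mem_univ _, rfl⟩
        · rw [Equiv.apply_symm_apply]
    rw [h1, card_univ, ZMod.card]
  have hinj : Function.Injective L := by
    intro ab ab' h
    have h1 : 1 < (univ.filter fun c => L ab c = 1).card := by
      rw [hones]
      exact hp.out.one_lt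
    obtain ⟨i, hi, j, hj, hij⟩ := one_lt_card.1 h1
    rw [mem_filter] at hi hj
    exact hlin ab ab' i j hij hi.2 hj.2 (by rw [← h]; exact hi.2) (by rw [← h]; exact hj.2)
  refine ⟨univ.image L, ?_, ?_, ?_⟩
  · intro x hx y hy i j hij h1 h2 h3 h4
    obtain ⟨ab, -, rfl⟩ := mem_image.1 hx
    obtain ⟨ab', -, rfl⟩ := mem_image.1 hy
    rw [hlin ab ab' i j hij h1 h2 h3 h4]
  · apply card_image_le.trans
    rw [card_univ, Fintype.card_prod, ZMod.card, sq]
  · unfold total
    rw [sum_image (fun x _ y _ h => hinj h), sum_congr rfl fun ab _ => hones ab, sum_const,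
      card_univ, Fintype.card_prod, ZMod.card, smul_eq_mul]
    apply le_of_eq
    ring

end Q123.ZK
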