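import Pool.Agent.Q123.ZK.Clone

/-!
Linear bounds for the number of ones.
-/

set_option autoImplicit false

open Finset Q123.CC

namespace Q123.ZK

variable {n : ℕ}

/-- no `t` rows have `s` common ones -/
def KFree (s t : ℕ) (C : Finset (Fin n → ZMod 2)) : Prop :=
  ∀ S : Finset (Fin n), S.card = s → (C.filter fun w => ∀ j ∈ S, w j = 1).card < t

/-- number of ones of a matrix with the set `C` of rows -/
def total (C : Finset (Fin n → ZMod 2)) : ℕ := ∑ w ∈ C, (univ.filter fun j => w j = 1).card

lemma exists_min {α : Type*} (r : α → α → Prop) (hrefl : ∀ x, r x x)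
    (htrans : ∀ x y z, r x y → r y z → r x z) (K : Finset α) (hne : K.Nonempty)
    (hK : ∀ x ∈ K, ∀ y ∈ K, r x y ∨ r y x) : ∃ k₀ ∈ K, ∀ k ∈ K, r k₀ k := by
  classical
  induction K using Finset.induction_on with
  | empty => exact absurd hne (by simp)
  | insert a K _ ih =>
    by_cases hKe : K.Nonempty
    · obtain ⟨k₀, hk₀, hmin⟩ := ih hKe (fun x hx y hy =>
        hK x (mem_insert_of_mem hx) y (mem_insert_of_mem hy))
      rcases hK a (mem_insert_self _ _) k₀ (mem_insert_of_mem hk₀) with h | h
      · refine ⟨a, mem_insert_self _ _, ?_⟩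
        intro k hk
        rcases mem_insert.1 hk with rfl | hk
        · exact hrefl _
        · exact htrans _ _ _ h (hmin k hk)
      · refine ⟨k₀, mem_insert_of_mem hk₀, ?_⟩
        intro k hk
        rcases mem_insert.1 hk with rfl | hk
        · exact h
        · exact hmin k hk
    · rw [not_nonempty_iff_eq_empty] at hKe
      refine ⟨a, mem_insert_self _ _, ?_⟩
      intro k hk
      rw [hKe] at hk
      rcases mem_insert.1 hk with rfl | hk
      · exact hrefl _
      · exact absurd hk (notMem_empty _)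

/-- Mirsky's theorem for preorders -/
theorem mirsky {α : Type*} (r : α → α → Prop) (hrefl : ∀ x, r x x)
    (htrans : ∀ x y z, r x y → r y z → r x z) (a : ℕ) :
    ∀ (s : ℕ) (X : Finset α), (∀ K ⊆ X, (∀ x ∈ K, ∀ y ∈ K, r x y ∨ r y x) → K.card ≤ s) →
      (∀ A ⊆ X, (∀ x ∈ A, ∀ y ∈ A, x ≠ y → ¬ r x y) → A.card ≤ a) → X.card ≤ s * a := by
  classical
  intro s
  induction s with
  | zero =>
    intro X hch _
    rw [Nat.zero_mul, Nat.le_zero, card_eq_zero]
    by_contra hne
    obtain ⟨x, hx⟩ := nonempty_iff_ne_empty.2 hne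
    have h1 := hch {x} (singleton_subset_iff.2 hx) (by
      intro y hy z hz
      rw [mem_singleton] at hy hz
      rw [hy, hz]
      exact Or.inl (hrefl _))
    rw [card_singleton] at h1
    omega
  | succ s ih =>
    intro X hch han
    have hex : ∃ m : ℕ, ∃ A : Finset α, A.card = m ∧ A ⊆ X ∧ ∀ x ∈ X, ∃ b ∈ A, r b x :=
      ⟨X.card, X, rfl, subset_rfl, fun x hx => ⟨x, hx, hrefl x⟩⟩
    obtain ⟨A, hAc, hAX, hA⟩ := Nat.find_spec hex
    have hanti : ∀ x ∈ A, ∀ y ∈ A, x ≠ y → ¬ r x y := by
      intro x hx y hy hxy hr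
      have h1 : (A.erase y).card < Nat.find hex := by
        rw [← hAc]
        exact card_erase_lt_of_mem hy
      apply Nat.find_min hex h1
      refine ⟨A.erase y, rfl, (erase_subset _ _).trans hAX, ?_⟩
      intro z hz
      obtain ⟨b, hb, hbz⟩ := hA z hz
      by_cases hby : b = y
      · refine ⟨x, mem_erase.2 ⟨hxy, hx⟩, ?_⟩
        rw [hby] at hbz
        exact htrans _ _ _ hr hbz
      · exact ⟨b, mem_erase.2 ⟨hby, hb⟩, hbz⟩
    have h2 : (X \ A).card ≤ s * a := by
      apply ih
      · intro K hK hKch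
        by_cases hKe : K.Nonempty
        · obtain ⟨k₀, hk₀, hmin⟩ := exists_min r hrefl htrans K hKe hKch
          obtain ⟨b, hb, hbk⟩ := hA k₀ (mem_sdiff.1 (hK hk₀)).1
          have hbK : b ∉ K := fun h => (mem_sdiff.1 (hK h)).2 hb
          have h3 := hch (insert b K) (by
            intro z hz
            rcases mem_insert.1 hz with rfl | hz
            · exact hAX hb
            · exact (mem_sdiff.1 (hK hz)).1) (by
            intro y hy z hz
            rcases mem_insert.1 hy with hy1 | hy1 <;> rcases mem_insert.1 hz with hz1 | hz1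
            · rw [hy1, hz1]
              exact Or.inl (hrefl _)
            · rw [hy1]
              exact Or.inl (htrans _ _ _ hbk (hmin z hz1))
            · rw [hz1]
              exact Or.inr (htrans _ _ _ hbk (hmin y hy1))
            · exact hKch y hy1 z hz1)
          rw [card_insert_of_notMem hbK] at h3
          omega
        · rw [not_nonempty_iff_eq_empty] at hKe
          rw [hKe, card_empty]
          exact Nat.zero_le _
      · intro B hB hBa
        exact han B (hB.trans sdiff_subset) hBa
    have h3 := han A hAX hanti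
    have h4 := card_sdiff_add_card_eq_card hAX
    have h5 : (s + 1) * a = s * a + a := by ring
    omega

/-- rows with one prescribed zero -/
lemma cosingleton {C : Finset (Fin n → ZMod 2)} {g : ZMod 2 → ZMod 2 → ZMod 2 → ZMod 2}
    (hg : ∀ y z, g 1 y z = y + z + y * z)
    (hC : ∀ x ∈ C, ∀ y ∈ C, ∀ z ∈ C, (fun j => g (x j) (y j) (z j)) ∈ C)
    {w : Fin n → ZMod 2} (hw : w ∈ C) {A : Finset (Fin n)} (hA : ∀ j ∈ A, w j = 1) {l : Fin n}
    (hl : w l = 1) (hpair : ∀ i ∈ A, ∃ u ∈ C, u i = 1 ∧ u l = 0) (hne : A.Nonempty) :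
    ∃ u ∈ C, u l = 0 ∧ ∀ i ∈ A, u i = 1 := by
  classical
  induction A using Finset.induction_on with
  | empty => exact absurd hne (by simp)
  | insert a A _ ih =>
    obtain ⟨u₁, hu₁, h1, h2⟩ := hpair a (mem_insert_self _ _)
    by_cases hAe : A.Nonempty
    · obtain ⟨u₂, hu₂, h3, h4⟩ := ih (fun j hj => hA j (mem_insert_of_mem hj))
        (fun i hi => hpair i (mem_insert_of_mem hi)) hAe
      refine ⟨_, hC w hw u₁ hu₁ u₂ hu₂, ?_, ?_⟩
      · show g (w l) (u₁ l) (u₂ l) = 0
        rw [hl, h2, h3, hg]
        decide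
      · intro i hi
        show g (w i) (u₁ i) (u₂ i) = 1
        rw [hA i hi, hg]
        rcases mem_insert.1 hi with rfl | hi
        · rw [h1]
          have : ∀ z : ZMod 2, 1 + z + 1 * z = 1 := by decide
          exact this _
        · rw [h4 i hi]
          have : ∀ z : ZMod 2, z + 1 + z * 1 = 1 := by decide
          exact this _
    · rw [not_nonempty_iff_eq_empty] at hAe
      refine ⟨u₁, hu₁, h2, ?_⟩
      intro i hi
      rw [hAe] at hi
      rcases mem_insert.1 hi with rfl | hi
      · exact h1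
      · exact absurd hi (notMem_empty _)

/-- heavy columns in a row -/
theorem heavy_le {s t : ℕ} (hs : 1 ≤ s) (ht : 1 ≤ t) {C : Finset (Fin n → ZMod 2)}
    (hK : KFree s t C) {g : ZMod 2 → ZMod 2 → ZMod 2 → ZMod 2}
    (hg : ∀ y z, g 1 y z = y + z + y * z)
    (hC : ∀ x ∈ C, ∀ y ∈ C, ∀ z ∈ C, (fun j => g (x j) (y j) (z j)) ∈ C)
    {w : Fin n → ZMod 2} (hw : w ∈ C) :
    (univ.filter fun j => w j = 1 ∧ t ≤ (C.filter fun u => u j = 1).card).card ≤
      (s - 1) * (s + t - 1) := by
  classical
  apply mirsky (fun i j => ∀ u ∈ C, u i = 1 → u j = 1) (fun _ _ _ h => h)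
    (fun _ _ _ h1 h2 u hu h => h2 u hu (h1 u hu h))
  · intro K hKs hch
    by_contra hcon
    push Not at hcon
    obtain ⟨K', hK', hK'c⟩ := exists_subset_card_eq (s := K) (n := s) (by omega)
    obtain ⟨k₀, hk₀, hmin⟩ := exists_min (fun i j => ∀ u ∈ C, u i = 1 → u j = 1)
      (fun _ _ _ h => h) (fun _ _ _ h1 h2 u hu h => h2 u hu (h1 u hu h)) K'
      (card_pos.1 (by omega)) (fun x hx y hy => hch x (hK' hx) y (hK' hy))
    have h1 := hK K' hK'c
    have h2 := (mem_filter.1 (hKs (hK' hk₀))).2.2
    have h3 : (C.filter fun u => u k₀ = 1).card ≤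
        (C.filter fun w => ∀ j ∈ K', w j = 1).card := by
      apply card_le_card
      intro u hu
      rw [mem_filter] at hu ⊢
      exact ⟨hu.1, fun j hj => hmin j hj u hu.1 hu.2⟩
    omega
  · intro A hA hanti
    by_contra hcon
    push Not at hcon
    obtain ⟨S, hS, hSc⟩ := exists_subset_card_eq (s := A) (n := s) (by omega)
    have h1 := hK S hSc
    have h2 : (A \ S).card ≤ (C.filter fun w => ∀ j ∈ S, w j = 1).card := by
      have hrow : ∀ l : Fin n, ∃ u : Fin n → ZMod 2,
          l ∈ A → u ∈ C ∧ u l = 0 ∧ ∀ i ∈ A.erase l, u i = 1 := by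
        intro l
        by_cases hl : l ∈ A
        · obtain ⟨u, hu, h3, h4⟩ := cosingleton hg hC hw (A := A.erase l) (l := l)
            (fun j hj => (mem_filter.1 (hA (mem_of_mem_erase hj))).2.1)
            (mem_filter.1 (hA hl)).2.1 (by
              intro i hi
              have h5 := hanti i (mem_of_mem_erase hi) l hl (ne_of_mem_erase hi)
              push Not at h5
              obtain ⟨u, hu, h6, h7⟩ := h5
              exact ⟨u, hu, h6, (zc _).resolve_right h7⟩)
            (card_pos.1 (by rw [card_erase_of_mem hl]; omega))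
          exact ⟨u, fun _ => ⟨hu, h3, h4⟩⟩
        · exact ⟨w, fun h => absurd h hl⟩
      choose R hR using hrow
      apply card_le_card_of_injOn R
      · intro l hl
        rw [mem_coe, mem_sdiff] at hl
        rw [mem_coe, mem_filter]
        obtain ⟨h3, h4, h5⟩ := hR l hl.1
        refine ⟨h3, ?_⟩
        intro j hj
        exact h5 j (mem_erase.2 ⟨fun h => hl.2 (h ▸ hj), hS hj⟩)
      · intro l hl l' hl' hll
        rw [mem_coe, mem_sdiff] at hl hl'
        by_contra hne
        obtain ⟨h3, h4, h5⟩ := hR l hl.1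
        obtain ⟨h3', h4', h5'⟩ := hR l' hl'.1
        have h6 := h5' l (mem_erase.2 ⟨hne, hl.1⟩)
        rw [← hll, h4] at h6
        exact absurd h6 (by decide)
    have h3 := card_sdiff_add_card_eq_card hS
    omega

/-- first kind -/
theorem total_first {s t : ℕ} (hs : 1 ≤ s) (ht : 1 ≤ t) {C : Finset (Fin n → ZMod 2)}
    (hK : KFree s t C) {g : ZMod 2 → ZMod 2 → ZMod 2 → ZMod 2}
    (hg : ∀ y z, g 1 y z = y + z + y * z)
    (hC : ∀ x ∈ C, ∀ y ∈ C, ∀ z ∈ C, (fun j => g (x j) (y j) (z j)) ∈ C) :
    total C ≤ (t - 1) * n + (s - 1) * (s + t - 1) * C.card := by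
  classical
  have h1 : ∀ w ∈ C, (univ.filter fun j => w j = 1).card ≤
      (univ.filter fun j => w j = 1 ∧ ¬ t ≤ (C.filter fun u => u j = 1).card).card +
        (s - 1) * (s + t - 1) := by
    intro w hw
    have h2 := heavy_le hs ht hK hg hC hw
    have h3 := card_filter_add_card_filter_not (s := univ.filter fun j => w j = 1)
      (p := fun j => t ≤ (C.filter fun u => u j = 1).card)
    rw [filter_filter, filter_filter] at h3
    omega
  have h2 : total C ≤ ∑ w ∈ C,
      ((univ.filter fun j => w j = 1 ∧ ¬ t ≤ (C.filter fun u => u j = 1).card).card +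
        (s - 1) * (s + t - 1)) := sum_le_sum h1
  rw [sum_add_distrib, sum_const, smul_eq_mul] at h2
  have h3 : ∑ w ∈ C, (univ.filter fun j => w j = 1 ∧
      ¬ t ≤ (C.filter fun u => u j = 1).card).card =
      ∑ j : Fin n, (if ¬ t ≤ (C.filter fun u => u j = 1).card
        then (C.filter fun u => u j = 1).card else 0) := by
    simp_rw [card_filter]
    rw [sum_comm]
    apply sum_congr rfl
    intro j _
    by_cases hj : ¬ t ≤ ∑ u ∈ C, (if u j = 1 then 1 else 0)
    · rw [if_pos hj]
      apply sum_congr rfl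
      intro w _
      by_cases hwj : w j = 1
      · rw [if_pos ⟨hwj, hj⟩, if_pos hwj]
      · rw [if_neg (fun h => hwj h.1), if_neg hwj]
    · rw [if_neg hj]
      apply sum_eq_zero
      intro w _
      rw [if_neg (fun h => hj h.2)]
  have h4 : ∑ j : Fin n, (if ¬ t ≤ (C.filter fun u => u j = 1).card
        then (C.filter fun u => u j = 1).card else 0) ≤ ∑ _j : Fin n, (t - 1) := by
    apply sum_le_sum
    intro j _
    split_ifs <;> omega
  rw [sum_const, card_univ, Fintype.card_fin, smul_eq_mul] at h4
  rw [h3] at h2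
  have h5 : C.card * ((s - 1) * (s + t - 1)) = (s - 1) * (s + t - 1) * C.card := mul_comm _ _
  have h6 : n * (t - 1) = (t - 1) * n := mul_comm _ _
  omega

/-- total is at most `m n` -/
lemma total_le (C : Finset (Fin n → ZMod 2)) : total C ≤ C.card * n := by
  unfold total
  rw [← smul_eq_mul, ← sum_const]
  apply sum_le_sum
  intro w _
  exact (card_le_univ _).trans (by rw [Fintype.card_fin])

/-- second kind: sums -/
theorem total_second {s t : ℕ} {C : Finset (Fin n → ZMod 2)}
    (hK : KFree s t C) (hC : ∀ x ∈ C, ∀ y ∈ C, ∀ z ∈ C, x + y + z ∈ C) :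
    total C ≤ s * C.card + 2 ^ s * t * n := by
  classical
  by_cases hall : ∀ w ∈ C, (univ.filter fun j => w j = 1).card ≤ s
  · have h1 : total C ≤ ∑ _w ∈ C, s := sum_le_sum hall
    rw [sum_const, smul_eq_mul, mul_comm] at h1
    omega
  · push Not at hall
    obtain ⟨w, hw, hws⟩ := hall
    obtain ⟨S, hS, hSc⟩ := exists_subset_card_eq (s := univ.filter fun j => w j = 1) (n := s)
      (by omega)
    have h1 : C.card ≤ t * (C.image fun (u : Fin n → ZMod 2) (j : S) => u j).card := by
      apply card_le_mul_card_image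
      intro p hp
      obtain ⟨u₀, hu₀, rfl⟩ := mem_image.1 hp
      have h2 : (C.filter fun u => (fun (j : S) => u j) = fun (j : S) => u₀ j).card ≤
          (C.filter fun w => ∀ j ∈ S, w j = 1).card := by
        apply card_le_card_of_injOn (fun x => x + u₀ + w)
        · intro x hx
          rw [mem_coe, mem_filter] at hx ⊢
          refine ⟨hC x hx.1 u₀ hu₀ w hw, ?_⟩
          intro j hj
          show x j + u₀ j + w j = 1
          have h3 := congrFun hx.2 ⟨j, hj⟩
          dsimp only at h3
          rw [h3, CharTwo.add_self_eq_zero, zero_add]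
          exact (mem_filter.1 (hS hj)).2
        · intro x _ y _ hxy
          have h3 : x + (u₀ + w) = y + (u₀ + w) := by
            rw [← add_assoc, ← add_assoc]
            exact hxy
          exact add_right_cancel h3
      have h3 := hK S hSc
      omega
    have h2 : (C.image fun (u : Fin n → ZMod 2) (j : S) => u j).card ≤ 2 ^ s := by
      apply (card_le_univ _).trans
      rw [Fintype.card_fun, ZMod.card, Fintype.card_coe, hSc]
    have h3 : C.card ≤ 2 ^ s * t := by
      calc C.card ≤ t * (C.image fun (u : Fin n → ZMod 2) (j : S) => u j).card := h1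
        _ ≤ t * 2 ^ s := Nat.mul_le_mul_left _ h2
        _ = 2 ^ s * t := mul_comm _ _
    have h4 := total_le C
    have h5 : C.card * n ≤ 2 ^ s * t * n := Nat.mul_le_mul_right _ h3
    omega

/-- third kind: negation -/
theorem total_third {s t : ℕ} {C : Finset (Fin n → ZMod 2)}
    (hK : KFree s t C) (hC : ∀ x ∈ C, x + 1 ∈ C) :
    total C ≤ 2 * s * C.card + 2 * 4 ^ s * t * n := by
  classical
  have h0 := total_le C
  rcases Nat.lt_or_ge n (2 * s) with hn | hn
  · have h1 : C.card * n ≤ 2 * s * C.card := by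
      rw [mul_comm]
      exact Nat.mul_le_mul_right _ (by omega)
    omega
  · obtain ⟨Y, _, hY⟩ := exists_subset_card_eq (s := (univ : Finset (Fin n))) (n := 2 * s)
      (by rw [card_univ, Fintype.card_fin]; exact hn)
    set C₁ := C.filter fun u => s ≤ (Y.filter fun j => u j = 1).card with hC₁
    have h1 : (C \ C₁).card ≤ C₁.card := by
      apply card_le_card_of_injOn (fun u => u + 1)
      · intro u hu
        rw [mem_coe, mem_sdiff, hC₁, mem_filter] at hu
        rw [mem_coe, hC₁, mem_filter]
        refine ⟨hC u hu.1, ?_⟩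
        show s ≤ (Y.filter fun j => (u + 1) j = 1).card
        have h2 : ¬ s ≤ (Y.filter fun j => u j = 1).card := fun h => hu.2 ⟨hu.1, h⟩
        have h3 := card_filter_add_card_filter_not (s := Y) (p := fun j => u j = 1)
        have h4 : (Y.filter fun j => ¬ u j = 1) = Y.filter fun j => (u + 1) j = 1 := by
          apply filter_congr
          intro j _
          show ¬ u j = 1 ↔ u j + 1 = 1
          have : ∀ z : ZMod 2, ¬ z = 1 ↔ z + 1 = 1 := by decide
          exact this _
        rw [h4, hY] at h3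
        omega
      · intro x _ y _ hxy
        exact add_right_cancel hxy
    have h2 : C₁ ⊆ (powersetCard s Y).biUnion fun S => C.filter fun w => ∀ j ∈ S, w j = 1 := by
      intro u hu
      rw [hC₁, mem_filter] at hu
      obtain ⟨S, hS, hSc⟩ := exists_subset_card_eq hu.2
      rw [mem_biUnion]
      refine ⟨S, ?_, ?_⟩
      · rw [mem_powersetCard]
        exact ⟨hS.trans (filter_subset _ _), hSc⟩
      · rw [mem_filter]
        exact ⟨hu.1, fun j hj => (mem_filter.1 (hS hj)).2⟩
    have h3 : C₁.card ≤ (2 * s).choose s * (t - 1) := by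
      apply (card_le_card h2).trans
      rw [← hY, ← card_powersetCard s Y]
      apply card_biUnion_le_card_mul
      intro S hS
      rw [mem_powersetCard] at hS
      have := hK S hS.2
      omega
    have h4 : (2 * s).choose s ≤ 4 ^ s := by
      have := Nat.choose_le_two_pow (2 * s) s
      rw [pow_mul] at this
      norm_num at this
      exact this
    have h5 : C₁.card ≤ 4 ^ s * t := by
      calc C₁.card ≤ (2 * s).choose s * (t - 1) := h3
        _ ≤ 4 ^ s * (t - 1) := Nat.mul_le_mul_right _ h4
        _ ≤ 4 ^ s * t := Nat.mul_le_mul_left _ (Nat.sub_le _ _)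
    have h6 := card_sdiff_add_card_eq_card (show C₁ ⊆ C from filter_subset _ _)
    have h7 : C.card ≤ 2 * 4 ^ s * t := by
      have : 2 * 4 ^ s * t = 2 * (4 ^ s * t) := by ring
      omega
    have h8 : C.card * n ≤ 2 * 4 ^ s * t * n := Nat.mul_le_mul_right _ h7
    omega

lemma sq_le (s : ℕ) : s * s + s ≤ 2 * 4 ^ s := by
  induction s with
  | zero => norm_num
  | succ s ih =>
    rw [pow_succ]
    have h1 : s + 1 ≤ 4 ^ s := by
      have := Nat.lt_pow_self (n := s) (a := 4) (by norm_num)
      omega
    nlinarith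

/-- **The linear bound.** -/
theorem linear {k : ℕ} {f : (Fin k → ZMod 2) → ZMod 2} (hf : ¬ IsConj f) {s t : ℕ} (hs : 1 ≤ s)
    (ht : 1 ≤ t) {C : Finset (Fin n → ZMod 2)} (hC : ClosedUnder f C) (hK : KFree s t C) :
    total C ≤ 2 * 4 ^ s * t * (C.card + n) := by
  have hsq := sq_le s
  have e : 2 * 4 ^ s * t * (C.card + n) = 2 * 4 ^ s * t * C.card + 2 * 4 ^ s * t * n := by ring
  rw [e]
  rcases kinds hf hC with ⟨g, hg, hgC⟩ | h | h
  · have h1 := total_first hs ht hK hg hgC
    have h2 : (t - 1) * n ≤ 2 * 4 ^ s * t * n := by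
      apply Nat.mul_le_mul_right
      have : 1 * t ≤ 2 * 4 ^ s * t := Nat.mul_le_mul_right _ (by
        have := Nat.one_le_pow s 4 (by norm_num)
        omega)
      omega
    have h3 : (s - 1) * (s + t - 1) * C.card ≤ 2 * 4 ^ s * t * C.card := by
      apply Nat.mul_le_mul_right
      calc (s - 1) * (s + t - 1) ≤ s * (s * t + t) := by
            apply Nat.mul_le_mul (Nat.sub_le _ _)
            have : s * 1 ≤ s * t := Nat.mul_le_mul_left _ ht
            omega
        _ = (s * s + s) * t := by ring
        _ ≤ 2 * 4 ^ s * t := Nat.mul_le_mul_right _ hsq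
    omega
  · have h1 := total_second (s := s) (t := t) hK h
    have h2 : 2 ^ s * t * n ≤ 2 * 4 ^ s * t * n := by
      apply Nat.mul_le_mul_right
      apply Nat.mul_le_mul_right
      have : 2 ^ s ≤ 4 ^ s := Nat.pow_le_pow_left (by norm_num) s
      omega
    have h3 : s * C.card ≤ 2 * 4 ^ s * t * C.card := by
      apply Nat.mul_le_mul_right
      calc s ≤ (s * s + s) * 1 := by nlinarith
        _ ≤ (s * s + s) * t := Nat.mul_le_mul_left _ ht
        _ ≤ 2 * 4 ^ s * t := Nat.mul_le_mul_right _ hsq
    omega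
  · have h1 := total_third (s := s) (t := t) hK h
    have h3 : 2 * s * C.card ≤ 2 * 4 ^ s * t * C.card := by
      apply Nat.mul_le_mul_right
      calc 2 * s ≤ (s * s + s) * 1 := by nlinarith
        _ ≤ (s * s + s) * t := Nat.mul_le_mul_left _ ht
        _ ≤ 2 * 4 ^ s * t := Nat.mul_le_mul_right _ hsq
    omega

end Q123.ZK
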